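import Pool.Agent.L0h16.LA.Pull
import Pool.Agent.N110.DV.Im

/-!
Sections, Iitaka dimension and numerical dimension of `ℚ`-linearly equivalent divisors and of the pull
backs by pseudo-automorphisms.
-/

set_option autoImplicit false
set_option linter.unusedSectionVars false

open FF Pool.Agent.W602.GT Pool.Agent.Y172 Pool.Agent.R887
open Pool.Agent.N110 Pool.Agent.N110.PA Pool.Agent.N110.NV Pool.Agent.N492.PA Pool.Agent.N110.CC
open Pool.Agent.N110.DV (SecD IitakaGe NuLt ImgClassLe nuLt_img)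

namespace Pool.Agent.L0h16.LA

section

variable {K : Type} [Field K] [Algebra ℂ K] {N n : ℕ} {y : Fin (N + 1) → K}

/-- Some positive multiple of the `ℚ`-divisor `L` is linearly equivalent to an effective divisor. -/
def QEff (y : Fin (N + 1) → K) (L : Place ℂ K → ℚ) : Prop :=
  ∃ m : ℕ, 1 ≤ m ∧ ∃ f : K, f ≠ 0 ∧ ∀ P, IsPrimeDivisor y P → 0 ≤ (P.ord f : ℚ) + m * L P

/-- The `ℚ`-divisors `L` and `L'` are `ℚ`-linearly equivalent. -/
def QLin (y : Fin (N + 1) → K) (L L' : Place ℂ K → ℚ) : Prop :=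
  ∃ m : ℕ, 1 ≤ m ∧ ∃ f : K, f ≠ 0 ∧ ∀ P, IsPrimeDivisor y P → (P.ord f : ℚ) = m * (L P - L' P)

/-- The Iitaka dimension and the numerical dimension of `L` are equal to some `k` with
`0 ≤ k < n`, `n` being the dimension of `X`. -/
def Abun (y : Fin (N + 1) → K) (n : ℕ) (L : Place ℂ K → ℚ) : Prop :=
  ∃ k : ℕ, k < n ∧ IitakaGe y L k ∧ NuLt y n L (k + 1)

theorem fin_sub {L L' : Place ℂ K → ℚ} (hL : Fin0 y L) (hL' : Fin0 y L') :
    Fin0 y (fun P => L P - L' P) := hL.sub hL'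

/-- irregularity zero -/
theorem qlin_of_num (hy : NormalModel y) (hq : IrregularityZero y) {L L' : Place ℂ K → ℚ}
    (hL : Fin0 y L) (hL' : Fin0 y L') (h : NumEquiv y L L') : QLin y L L' := by
  obtain ⟨m, hm, f, hf, h1⟩ := torsion hy hq (fin_sub hL hL') h.1 (by
    have h2 := h.2
    have h3 : (fun P => -(L P - L' P)) = fun P => L' P - L P := by
      funext P
      ring
    rw [h3]
    exact h2)
  exact ⟨m, hm, f, hf, h1⟩

/-- the section of a multiple of `L` given by sections of multiples of `E`, where `L` is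
`ℚ`-linearly equivalent to `(a / b) f^* E` -/
theorem sec_transport {ψ : K ≃ₐ[ℂ] K} (hψ : PseudoAut ψ y) {L E : Place ℂ K → ℚ} {a b m₁ m₂ : ℕ}
    (hb : 1 ≤ b) {f₁ : K} (hf₁ : f₁ ≠ 0)
    (h1 : ∀ P, IsPrimeDivisor y P → (P.ord f₁ : ℚ) = m₁ * (L P - (a / b : ℚ) * pullD ψ E P))
    {g g₀ : K} (hg : g ≠ 0) (hg₀ : g₀ ≠ 0) (h2 : ∀ P, IsPrimeDivisor y P → 0 ≤ (P.ord g : ℚ) + m₂ * E P)
    (h3 : ∀ P, IsPrimeDivisor y P → 0 ≤ (P.ord g₀ : ℚ) + m₂ * E P) (hma : 1 ≤ m₁ * a) :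
    ∀ P, IsPrimeDivisor y P → 0 ≤ (P.ord (ψ g * (ψ g₀) ^ (m₁ * a - 1) / f₁ ^ (m₂ * b)) : ℚ) +
      ((m₁ * m₂ * b : ℕ) : ℚ) * L P := by
  intro P hP
  have hP' : IsPrimeDivisor y (comap ψ P) := (hψ _ _ fun _ => rfl).2 hP
  have e2 := h2 _ hP'
  have e3 := h3 _ hP'
  rw [comap_ord] at e2 e3
  have hgψ : ψ g ≠ 0 := by rwa [Ne, map_eq_zero]
  have hgψ₀ : ψ g₀ ≠ 0 := by rwa [Ne, map_eq_zero]
  rw [P.ord_div (mul_ne_zero hgψ (pow_ne_zero _ hgψ₀)) (pow_ne_zero _ hf₁),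
    P.ord_mul hgψ (pow_ne_zero _ hgψ₀), P.ord_pow, P.ord_pow]
  have e1 := h1 P hP
  have hb' : (b : ℚ) ≠ 0 := by
    have : 0 < b := hb
    exact_mod_cast this.ne'
  have e4 : ((m₁ * m₂ * b : ℕ) : ℚ) * L P = (m₂ * b : ℚ) * P.ord f₁ +
      (m₁ * a : ℚ) * (m₂ * E (comap ψ P)) := by
    rw [e1]
    unfold pullD
    push_cast
    field_simp
    ring
  rw [e4]
  have e5 : (((m₁ * a - 1 : ℕ) : ℤ) : ℚ) = (m₁ * a : ℚ) - 1 := by
    have : ((m₁ * a - 1 : ℕ) : ℤ) = ((m₁ * a : ℕ) : ℤ) - 1 := by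
      push_cast [Nat.cast_sub hma]
      ring
    rw [this]
    push_cast
    ring
  push_cast at e5 ⊢
  rw [e5]
  have e6 : (0 : ℚ) ≤ (m₁ * a : ℚ) - 1 := by
    have : (1 : ℚ) ≤ ((m₁ * a : ℕ) : ℚ) := by exact_mod_cast hma
    push_cast at this
    linarith
  nlinarith [mul_nonneg e6 e3]

theorem exists_ab {t : ℚ} (ht : 0 < t) : ∃ a b : ℕ, 1 ≤ a ∧ 1 ≤ b ∧ t = a / b := by
  refine ⟨t.num.toNat, t.den, ?_, t.den_pos, ?_⟩
  · have h1 : 0 < t.num := Rat.num_pos.2 ht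
    have h2 : ((t.num.toNat : ℕ) : ℤ) = t.num := Int.toNat_of_nonneg h1.le
    have h3 : (0 : ℤ) < ((t.num.toNat : ℕ) : ℤ) := by rw [h2]; exact h1
    exact_mod_cast h3
  · have h1 : 0 < t.num := Rat.num_pos.2 ht
    have h2 : ((t.num.toNat : ℕ) : ℤ) = t.num := Int.toNat_of_nonneg h1.le
    have h3 : ((t.num.toNat : ℕ) : ℚ) = t.num := by exact_mod_cast h2
    rw [h3]
    exact (Rat.num_div_den t).symm

/-- effectivity -/
theorem qeff_transport {ψ : K ≃ₐ[ℂ] K} (hψ : PseudoAut ψ y) {L E : Place ℂ K → ℚ} {t : ℚ}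
    (ht : 0 < t) (h : QLin y L (fun P => t * pullD ψ E P)) (hE : QEff y E) : QEff y L := by
  obtain ⟨a, b, ha, hb, rfl⟩ := exists_ab ht
  obtain ⟨m₁, hm₁, f₁, hf₁, h1⟩ := h
  obtain ⟨m₂, hm₂, g, hg, h2⟩ := hE
  have hma : 1 ≤ m₁ * a := Nat.one_le_iff_ne_zero.2 (by positivity)
  have hgψ : ψ g ≠ 0 := by rwa [Ne, map_eq_zero]
  exact ⟨m₁ * m₂ * b, Nat.one_le_iff_ne_zero.2 (by positivity), _,
    div_ne_zero (mul_ne_zero hgψ (pow_ne_zero _ hgψ)) (pow_ne_zero _ hf₁),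
    sec_transport hψ hb hf₁ h1 hg hg h2 h2 hma⟩

/-- Iitaka dimension -/
theorem iitaka_transport {ψ : K ≃ₐ[ℂ] K} (hψ : PseudoAut ψ y) {L E : Place ℂ K → ℚ} {t : ℚ}
    (ht : 0 < t) (h : QLin y L (fun P => t * pullD ψ E P)) {k : ℕ} (hE : IitakaGe y E k) :
    IitakaGe y L k := by
  obtain ⟨a, b, ha, hb, rfl⟩ := exists_ab ht
  obtain ⟨m₁, hm₁, f₁, hf₁, h1⟩ := h
  obtain ⟨m₂, hm₂, g, hg, hg0, hind⟩ := hE
  have hma : 1 ≤ m₁ * a := Nat.one_le_iff_ne_zero.2 (by positivity)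
  have hgψ : ψ (g 0) ≠ 0 := by rwa [Ne, map_eq_zero]
  have hsec : ∀ j, g j ≠ 0 → ∀ P, IsPrimeDivisor y P → 0 ≤ (P.ord (g j) : ℚ) + m₂ * E P := by
    intro j hj P hP
    have h3 := (hg j P hP).resolve_left hj
    rw [Pool.Agent.N110.DV.sm1] at h3
    linarith
  refine ⟨m₁ * m₂ * b, Nat.one_le_iff_ne_zero.2 (by positivity),
    fun j => ψ (g j) * (ψ (g 0)) ^ (m₁ * a - 1) / f₁ ^ (m₂ * b), fun j P hP => ?_,
    div_ne_zero (mul_ne_zero hgψ (pow_ne_zero _ hgψ)) (pow_ne_zero _ hf₁), ?_⟩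
  · by_cases hj : g j = 0
    · left
      beta_reduce
      rw [hj, map_zero, zero_mul, zero_div]
    · right
      have h4 := sec_transport hψ hb hf₁ h1 hj hg0 (hsec j hj) (hsec 0 hg0) hma P hP
      rw [Pool.Agent.N110.DV.sm1]
      linarith
  · have h5 : (fun i : Fin k => ψ (g i.succ) * (ψ (g 0)) ^ (m₁ * a - 1) / f₁ ^ (m₂ * b) /
        (ψ (g 0) * (ψ (g 0)) ^ (m₁ * a - 1) / f₁ ^ (m₂ * b))) = fun i : Fin k => ψ (g i.succ / g 0) := by
      funext i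
      rw [map_div₀]
      have h6 : (ψ (g 0)) ^ (m₁ * a - 1) ≠ 0 := pow_ne_zero _ hgψ
      have h7 : f₁ ^ (m₂ * b) ≠ 0 := pow_ne_zero _ hf₁
      rw [div_div_div_cancel_right₀ h7, mul_div_mul_right _ _ h6]
    rw [h5]
    exact hind.map' (f := (ψ : K →ₐ[ℂ] K)) ψ.injective

/-- numerical dimension of integral multiples -/
theorem nuLt_mul {E : Place ℂ K → ℚ} {j a : ℕ} (ha : 1 ≤ a) (h : NuLt y n E j) :
    NuLt y n (a • E) j := by
  intro A hA ε hε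
  have haR : (0 : ℝ) < a := by exact_mod_cast ha
  obtain ⟨t, ht, m₀, h1⟩ := h A hA (ε / (a : ℝ) ^ j) (by positivity)
  refine ⟨t * a, by positivity, m₀, fun m b hm hb u hu g hg hg0 => ?_⟩
  have h2 := h1 (m * a) b (le_trans hm (Nat.le_mul_of_pos_right m ha)) (by
    push_cast
    linarith) u hu g (fun i => by
      have h3 := hg i
      have h4 : m • a • E + b • A = (m * a) • E + b • A := by
        rw [← mul_smul]
      rw [← h4]
      exact h3) hg0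
  refine h2.trans (le_of_eq ?_)
  push_cast
  rw [mul_pow]
  field_simp

/-- numerical dimension: division -/
theorem nuLt_div {F : Place ℂ K → ℚ} (hF : Fin0 y F) {j b : ℕ} (hb : 1 ≤ b)
    (h : NuLt y n (b • F) j) : NuLt y n F j := by
  intro A hA ε hε
  have hbR : (0 : ℝ) < b := by exact_mod_cast hb
  have hA' : Effective y (fun P => A P + b * |F P|) := by
    refine ⟨fun P hP => add_nonneg (hA.1 P hP) (by positivity), (hA.2.union hF).subset ?_⟩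
    rintro P ⟨hP, h0⟩
    by_cases h1 : A P = 0
    · right
      refine ⟨hP, fun h2 => h0 ?_⟩
      beta_reduce
      rw [h1, h2]
      simp
    · exact Or.inl ⟨hP, h1⟩
  obtain ⟨t, ht, m₀, h1⟩ := h _ hA' ε hε
  obtain ⟨q₀, hq₀⟩ := exists_nat_gt ((2 : ℝ) * b / t + b)
  refine ⟨t / (4 * b), by positivity, max (m₀ * b + b) (q₀ + 1), fun m β hm hβ u hu g hg hg0 => ?_⟩
  -- m = b * q + r
  obtain ⟨q, hq⟩ : ∃ q, q = m / b := ⟨_, rfl⟩
  obtain ⟨r, hr⟩ : ∃ r, r = m % b := ⟨_, rfl⟩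
  have hmqr : m = b * q + r := by rw [hq, hr]; exact (Nat.div_add_mod m b).symm
  have hrb : r < b := by rw [hr]; exact Nat.mod_lt _ hb
  have hm1 : m₀ * b + b ≤ m := le_trans (le_max_left _ _) hm
  have hm2 : q₀ + 1 ≤ m := le_trans (le_max_right _ _) hm
  have hqm : m₀ ≤ q := by
    rw [hq, Nat.le_div_iff_mul_le hb]
    omega
  have hm2' : (q₀ : ℝ) + 1 ≤ m := by exact_mod_cast hm2
  have hqR : (m : ℝ) = b * q + r := by exact_mod_cast hmqr
  have hrR : (r : ℝ) ≤ b := by exact_mod_cast hrb.le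
  have hq2 : (m : ℝ) - b ≤ b * q := by linarith
  have hle1 : (2 : ℝ) * b / t + b < m := by linarith
  have hβ1 : ((β + 1 : ℕ) : ℝ) ≤ t * q := by
    push_cast
    have h3 : (2 : ℝ) * b / t < m - b := by linarith
    rw [div_lt_iff₀ ht] at h3
    have h4 : (1 : ℝ) ≤ t * q / 2 := by
      have h5 : (2 : ℝ) * b < b * (t * q) := by nlinarith
      have h6 : (2 : ℝ) < t * q := by
        by_contra h7
        push Not at h7
        nlinarith
      linarith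
    have h8 : (β : ℝ) ≤ t * q / 2 := by
      refine hβ.trans ?_
      have h9 : (m : ℝ) ≤ 2 * (b * q) := by
        have h10 : (b : ℝ) ≤ b * q := by
          have h11 : (1 : ℝ) ≤ q := by
            have h12 : 0 < q := by
              by_contra h13
              have h14 : q = 0 := by omega
              rw [h14] at h4
              simp at h4
              linarith
            exact_mod_cast h12
          nlinarith
        linarith
      have h15 : t / (4 * b) * m ≤ t / (4 * b) * (2 * (b * q)) := mul_le_mul_of_nonneg_left h9 (by positivity)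
      refine h15.trans (le_of_eq ?_)
      field_simp
      ring
    linarith
  have h2 := h1 q (β + 1) hqm hβ1 u hu g (fun i P hP => by
    refine (hg i P hP).imp_right fun h3 => le_trans ?_ h3
    rw [Pool.Agent.N110.DV.sm2, Pool.Agent.N110.DV.sm2, Pool.Agent.N110.DV.sm1]
    have h4 : (m : ℚ) = b * q + r := by exact_mod_cast hmqr
    have h5 : (r : ℚ) ≤ b := by exact_mod_cast hrb.le
    have h6 : (r : ℚ) * F P ≤ b * |F P| := by
      have h7 : (r : ℚ) * F P ≤ r * |F P| := mul_le_mul_of_nonneg_left (le_abs_self _) (Nat.cast_nonneg r)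
      have h8 : (r : ℚ) * |F P| ≤ b * |F P| := mul_le_mul_of_nonneg_right h5 (abs_nonneg _)
      linarith
    have h9 := hA.1 P hP
    rw [h4]
    push_cast
    have h10 : (0 : ℚ) ≤ b * |F P| := by positivity
    have h11 : (0 : ℚ) ≤ β * (b * |F P|) := by positivity
    nlinarith) hg0
  refine h2.trans (mul_le_mul_of_nonneg_left ?_ hε.le)
  refine pow_le_pow_left₀ (by positivity) ?_ j
  have h3 : q ≤ m := by rw [hq]; exact Nat.div_le_self m b
  exact_mod_cast h3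

/-- rational multiples -/
theorem nuLt_rat {E : Place ℂ K → ℚ} (hE : Fin0 y E) {j : ℕ} {t : ℚ} (ht : 0 < t)
    (h : NuLt y n E j) : NuLt y n (fun P => t * E P) j := by
  obtain ⟨a, b, ha, hb, rfl⟩ := exists_ab ht
  refine nuLt_div (hE.smul _) hb ?_
  have hb' : (b : ℚ) ≠ 0 := by
    have : 0 < b := hb
    exact_mod_cast this.ne'
  have h1 : (b • fun P => (a / b : ℚ) * E P) = a • E := by
    funext P
    rw [Pool.Agent.N110.DV.sm1, Pool.Agent.N110.DV.sm1]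
    field_simp
  rw [h1]
  exact nuLt_mul ha h

/-- numerical dimension -/
theorem nuLt_transport (hy : NormalModel y) (hn : Algebra.trdeg ℂ K = n) {ψ : K ≃ₐ[ℂ] K}
    (hψ : PseudoAut ψ y) {L E : Place ℂ K → ℚ} (hL : Fin0 y L) (hE : Fin0 y E) {t : ℚ}
    (ht : 0 < t) (h : QLin y L (fun P => t * pullD ψ E P)) {j : ℕ} (hj : j ≤ n)
    (hE' : NuLt y n E j) : NuLt y n L j := by
  have h1 := nuLt_rat hE ht hE'
  refine nuLt_img (y := y) (y' := y) (π := ((ψ⁻¹ : K ≃ₐ[ℂ] K) : K →ₐ[ℂ] K)) hy hy hn hn ?_ hj h1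
  obtain ⟨m₁, hm₁, f₁, hf₁, h2⟩ := h
  -- `D = t E - π^* L` with `m₁ D` principal
  obtain ⟨D, hD⟩ : ∃ D : Place ℂ K → ℚ, D = fun Q => t * E Q - L (comap ψ⁻¹ Q) := ⟨_, rfl⟩
  have hψ' : PseudoAut ψ⁻¹ y := (psGroup y).inv_mem hψ
  have hfin : Fin0 y D := by
    rw [hD]
    exact Fin0.sub (hE.smul t) (fin_pull hψ' hL)
  have h3 : ∀ Q, IsPrimeDivisor y Q → -((comap ψ⁻¹ Q).ord f₁ : ℚ) = m₁ * D Q := by
    intro Q hQ
    have hQ' : IsPrimeDivisor y (comap ψ⁻¹ Q) := (hψ' _ _ fun _ => rfl).2 hQ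
    have h4 := h2 _ hQ'
    unfold pullD at h4
    beta_reduce at h4
    rw [comap_comap_inv] at h4
    rw [h4, hD]
    ring
  refine ⟨fun Q => m₁ * |D Q|, ⟨fun Q hQ => by positivity, ?_⟩, fun m hm => ?_⟩
  · refine hfin.subset ?_
    rintro Q ⟨hQ, h0⟩
    exact ⟨hQ, fun h5 => h0 (by beta_reduce; rw [h5]; simp)⟩
  · have hfψ : (ψ⁻¹ : K ≃ₐ[ℂ] K) f₁ ≠ 0 := by rwa [Ne, map_eq_zero]
    refine ⟨((ψ⁻¹ : K ≃ₐ[ℂ] K) f₁) ^ (m / m₁), pow_ne_zero _ hfψ, fun Q hQ P e hl => ?_⟩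
    -- the place below
    have he : P = comap ψ⁻¹ Q ∧ e = 1 := by
      obtain ⟨he1, hl⟩ := hl
      obtain ⟨s, hs0, hs⟩ := Q.surj
      have h5 := hl ((ψ : K ≃ₐ[ℂ] K) s)
      have h6 : ((ψ⁻¹ : K ≃ₐ[ℂ] K) : K →ₐ[ℂ] K) (ψ s) = s := by
        show (ψ⁻¹ : K ≃ₐ[ℂ] K) (ψ s) = s
        exact ψ.symm_apply_apply s
      rw [h6, hs] at h5
      have h7 : e = 1 := by
        have h8 : (e : ℤ) ∣ 1 := ⟨_, h5⟩
        have h9 : (e : ℤ) = 1 := Int.eq_one_of_dvd_one (by positivity) h8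
        exact_mod_cast h9
      refine ⟨?_, h7⟩
      apply Place.ext
      funext g
      have h8 := hl g
      rw [h7] at h8
      rw [comap_ord]
      have h9 : Q.ord ((ψ⁻¹ : K ≃ₐ[ℂ] K) g) = ((1 : ℕ) : ℤ) * P.ord g := h8
      rw [h9]
      ring
    obtain ⟨rfl, rfl⟩ := he
    refine ⟨(hψ' _ _ fun _ => rfl).2 hQ, ?_⟩
    rw [Q.ord_pow]
    have h5 := h3 Q hQ
    rw [comap_ord] at h5
    obtain ⟨q, hq⟩ : ∃ q, q = m / m₁ := ⟨_, rfl⟩
    obtain ⟨r, hr⟩ : ∃ r, r = m % m₁ := ⟨_, rfl⟩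
    have hmqr : m = m₁ * q + r := by rw [hq, hr]; exact (Nat.div_add_mod m m₁).symm
    have hrb : r < m₁ := by rw [hr]; exact Nat.mod_lt _ hm₁
    rw [← hq]
    have h6 : (m : ℚ) = m₁ * q + r := by exact_mod_cast hmqr
    have h7 : (r : ℚ) ≤ m₁ := by exact_mod_cast hrb.le
    have h8 : -((m₁ : ℚ) * |D Q|) ≤ r * D Q := by
      have h9 : -((r : ℚ) * |D Q|) ≤ r * D Q := by
        have h10 := mul_le_mul_of_nonneg_left (neg_abs_le (D Q)) (Nat.cast_nonneg (α := ℚ) r)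
        linarith
      have h11 : (r : ℚ) * |D Q| ≤ m₁ * |D Q| := mul_le_mul_of_nonneg_right h7 (abs_nonneg _)
      linarith
    have h12 : t * E Q - ((1 : ℕ) : ℚ) * L (comap ψ⁻¹ Q) = D Q := by
      rw [hD]
      push_cast
      ring
    rw [h12, h6]
    push_cast
    have h13 : ((q : ℚ)) * (Q.ord ((ψ⁻¹ : K ≃ₐ[ℂ] K) f₁) : ℚ) = -(q * (m₁ * D Q)) := by
      rw [← h5]
      ring
    rw [h13]
    linarith

theorem abun_transport (hy : NormalModel y) (hn : Algebra.trdeg ℂ K = n) {ψ : K ≃ₐ[ℂ] K}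
    (hψ : PseudoAut ψ y) {L E : Place ℂ K → ℚ} (hL : Fin0 y L) (hE : Fin0 y E) {t : ℚ}
    (ht : 0 < t) (h : QLin y L (fun P => t * pullD ψ E P)) (hE' : Abun y n E) : Abun y n L := by
  obtain ⟨k, hk, h1, h2⟩ := hE'
  exact ⟨k, hk, iitaka_transport hψ ht h h1, nuLt_transport hy hn hψ hL hE ht h hk h2⟩

/-- big divisors are effective -/
theorem qeff_of_big (hy : NormalModel y) {L : Place ℂ K → ℚ} (h : BigD y L) : QEff y L := by
  obtain ⟨i, hi⟩ := hy.ne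
  obtain ⟨Hy, hHe, hH⟩ := exists_hyp hy hi
  obtain ⟨m, hm, f, hf, h1⟩ := h i hi
  refine ⟨m, hm, f, hf, fun P hP => ?_⟩
  obtain ⟨l, hl⟩ := exists_centred hy P
  have h2 := h1 P l hP hl
  have h3 := hHe.1 P hP
  rw [hH P l hP hl] at h3
  linarith

end

end Pool.Agent.L0h16.LA
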