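import Pool.Agent.L0h16.LA.Main
import Pool.Agent.L0h18.HZ.Inst

/-!
Non-big classes on varieties with a covering of the open cone of big classes by the translates of a rational
polyhedral cone: they are nonnegative rational combinations of the translates, by one element of the group, of
finitely many integral non-big classes.
-/

set_option autoImplicit false
set_option linter.unusedSectionVars false

open FF Pool.Agent.W602.GT Pool.Agent.Y172 Pool.Agent.R887
open Pool.Agent.Y167 (cone mem_cone_self)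
open Pool.Agent.N110 Pool.Agent.N110.PA Pool.Agent.N110.NV Pool.Agent.N492.PA Pool.Agent.N110.CC
open Pool.Agent.N165.KM (IntL interior_add_mem interior_smul_mem)
open Pool.Agent.L0h18.CO Pool.Agent.L0h18.HZ

namespace Pool.Agent.L0h16.LA

section

variable {K : Type} [Field K] [Algebra ℂ K] {N n ρ : ℕ} {y : Fin (N + 1) → K}
  {c : Place ℂ K → Fin ρ → ℤ} {𝒮 : Subgroup (K ≃ₐ[ℂ] K)} {P C : Set (Fin ρ → ℝ)}

/-- **The boundary classes**: finitely many integral vectors. -/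
theorem bdry (hy : NormalModel y) (hc : PicardBasis y c) (h𝒮 : ∀ φ ∈ 𝒮, PseudoAut φ y) (hC : CCone C)
    (hop : IsOpenCone P) (hcl : closure P = C) (hint' : interior C = P) (hPne : P.Nonempty)
    {F₀ : Finset (Fin ρ → ℝ)} (hcov : ∀ x ∈ P, ∃ T ∈ pulls y c 𝒮, T x ∈ cone F₀)
    (hF₀ : ∀ a ∈ F₀, a ∈ IntL ρ ∧ a ∈ C) (hCE : CE y c = C) :
    ∃ F : Finset (Fin ρ → ℝ), (∀ s ∈ F, s ∈ IntL ρ ∧ s ∈ C ∧ s ∉ P) ∧
      ∀ q : Fin ρ → ℚ, toR q ∈ C → toR q ∉ P →
        ∃ T ∈ pulls y c 𝒮, ∃ t : (Fin ρ → ℝ) → ℚ, (∀ s, 0 ≤ t s) ∧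
          toR q = ∑ s ∈ F, (t s : ℝ) • T s := by
  classical
  obtain ⟨⟨S, hS, hU, -⟩, -, -⟩ := mainG2 (𝒮 := 𝒮) (𝒯 := 𝒮) hy hc le_rfl h𝒮 hC hop hcl hint' hPne hcov hF₀ hCE
    (A := C) rfl
  have hlat := lat hy hc h𝒮
  have hpres : ∀ T ∈ pulls y c 𝒮, ∀ x ∈ C, T x ∈ C := by
    intro T hT x hx
    rw [← hCE] at hx ⊢
    exact hlat.pres T hT x hx
  have hpres' : ∀ T ∈ pulls y c 𝒮, ∀ x, T x ∈ C → x ∈ C := by
    intro T hT x hx
    have h1 := hpres _ (hlat.symm T hT) _ hx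
    rwa [LinearEquiv.symm_apply_apply] at h1
  have hadd : ∀ x ∈ P, ∀ z ∈ C, x + z ∈ P := by
    intro x hx z hz
    rw [← hint'] at hx ⊢
    exact interior_add_mem hC.add hx hz
  have h0C : (0 : Fin ρ → ℝ) ∈ C := by
    obtain ⟨p, hp⟩ := hPne
    have h1 : p ∈ C := by rw [← hcl]; exact subset_closure hp
    have := hC.smul 0 le_rfl p h1
    rwa [zero_smul] at this
  have hhull : ∀ x ∈ coneOf {x : Fin ρ → ℝ | (∀ i, ∃ m : ℤ, x i = (m : ℝ)) ∧ x ∈ C}, x ∈ C := by
    intro x hx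
    exact coneOf_ind (p := fun x => x ∈ C) h0C
        (fun x z hx hz => hC.add x hx z hz) (fun t x ht hx => hC.smul t ht x hx) (fun a ha => ha.2) hx
  have hSC : ∀ T ∈ pulls y c 𝒮, ∀ s ∈ S, s ∈ C := by
    intro T hT s hs
    have h2 : T s ∈ coneOf {x : Fin ρ → ℝ | (∀ i, ∃ m : ℤ, x i = (m : ℝ)) ∧ x ∈ C} := by
      rw [hU]
      simp only [Set.mem_iUnion, Set.mem_image]
      exact ⟨T, hT, s, mem_cone_self hs, rfl⟩
    exact hpres' T hT s (hhull _ h2)
  -- the elements of `P` are preserved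
  have hPpres : ∀ T ∈ pulls y c 𝒮, ∀ x ∈ P, T x ∈ P := by
    intro T hT x hx
    rw [← hint'] at hx ⊢
    have h1 : T '' interior C ⊆ C := by
      rintro _ ⟨z, hz, rfl⟩
      exact hpres T hT z (interior_subset hz)
    have h2 : IsOpen (T '' interior C) :=
      (T.toContinuousLinearEquiv.toHomeomorph.isOpenMap) _ isOpen_interior
    exact interior_maximal h1 h2 (Set.mem_image_of_mem _ hx)
  refine ⟨S.filter (fun s => s ∈ C ∧ s ∉ P), fun s hs => ?_, fun q hq hqP => ?_⟩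
  · rw [Finset.mem_filter] at hs
    exact ⟨hS s hs.1, hs.2.1, hs.2.2⟩
  · obtain ⟨m, hm1, hmq⟩ := exists_int_mul q
    have hm0 : (0 : ℝ) < m := by exact_mod_cast hm1
    have h1 : toR q ∈ coneOf {x : Fin ρ → ℝ | (∀ i, ∃ m : ℤ, x i = (m : ℝ)) ∧ x ∈ C} := by
      have h2 : toR q = (m : ℝ)⁻¹ • ((m : ℝ) • toR q) := by
        rw [smul_smul, inv_mul_cancel₀ hm0.ne', one_smul]
      rw [h2]
      have h3 : (m : ℝ) • toR q ∈ coneOf {x : Fin ρ → ℝ | (∀ i, ∃ m : ℤ, x i = (m : ℝ)) ∧ x ∈ C} :=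
        coneOf_self ⟨hmq, hC.smul _ hm0.le _ hq⟩
      exact coneOf_smul h3 (by positivity)
    rw [hU] at h1
    simp only [Set.mem_iUnion, Set.mem_image] at h1
    obtain ⟨T, hT, z, ⟨a, ha, hz⟩, hTz⟩ := h1
    have hzP : z ∉ P := fun h2 => hqP (by rw [← hTz]; exact hPpres T hT z h2)
    -- coefficients of the elements of `P` vanish
    have hz0 : ∀ s ∈ S, s ∈ P → a s = 0 := by
      intro s hs hsP
      by_contra h2
      have h3 : 0 < a s := lt_of_le_of_ne (ha s) (Ne.symm h2)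
      apply hzP
      rw [hz, ← Finset.add_sum_erase S (fun s => a s • s) hs]
      refine hadd _ (hop.smul _ h3 _ hsP) _ ?_
      refine Finset.sum_induction _ (· ∈ C) (fun x z hx hz => hC.add x hx z hz) h0C fun s' hs' => ?_
      exact hC.smul _ (ha s') _ (hSC T hT s' (Finset.mem_of_mem_erase hs'))
    have hz1 : z = ∑ s ∈ S.filter (fun s => s ∈ C ∧ s ∉ P), a s • s := by
      rw [hz, Finset.sum_filter]
      refine Finset.sum_congr rfl fun s hs => ?_
      by_cases h2 : s ∈ P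
      · rw [if_neg (fun h3 => h3.2 h2), hz0 s hs h2, zero_smul]
      · rw [if_pos ⟨hSC T hT s hs, h2⟩]
    have hint : ∀ s : Fin ρ → ℝ, ∃ b : Fin ρ → ℚ, s ∈ IntL ρ → toR b = T s := by
      intro s
      by_cases hs : s ∈ IntL ρ
      · have h2 := hlat.int T hT s hs
        choose b hb using h2
        refine ⟨fun i => (b i : ℚ), fun _ => ?_⟩
        funext i
        rw [hb i]
        simp [toR]
      · exact ⟨0, fun h => absurd h hs⟩
    choose b hb using hint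
    obtain ⟨a', ha', hq'⟩ := Pool.Agent.N619.CC.rat_cone b q _ (S.filter (fun s => s ∈ C ∧ s ∉ P)) rfl a ha (by
      rw [← hTz, hz1, map_sum]
      refine Finset.sum_congr rfl fun s hs => ?_
      rw [map_smul, hb s (hS s (Finset.mem_filter.1 hs).1)])
    refine ⟨T, hT, a', ha', ?_⟩
    rw [hq']
    funext i
    rw [Finset.sum_apply]
    show (((∑ s ∈ S.filter (fun s => s ∈ C ∧ s ∉ P), a' s • b s) i : ℚ) : ℝ) = _
    rw [Finset.sum_apply]
    push_cast
    refine Finset.sum_congr rfl fun s hs => ?_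
    rw [← hb s (hS s (Finset.mem_filter.1 hs).1)]
    show (((a' s • b s) i : ℚ) : ℝ) = (a' s : ℝ) * ((b s i : ℚ) : ℝ)
    rw [Pi.smul_apply, smul_eq_mul]
    push_cast
    rfl

/-- **The boundary divisors** -/
theorem bdry_div (hy : NormalModel y) (hc : PicardBasis y c) (h𝒮 : ∀ φ ∈ 𝒮, PseudoAut φ y) (hC : CCone C)
    (hop : IsOpenCone P) (hcl : closure P = C) (hint' : interior C = P) (hPne : P.Nonempty)
    {F₀ : Finset (Fin ρ → ℝ)} (hcov : ∀ x ∈ P, ∃ T ∈ pulls y c 𝒮, T x ∈ cone F₀)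
    (hF₀ : ∀ a ∈ F₀, a ∈ IntL ρ ∧ a ∈ C) (hCE : CE y c = C) :
    ∃ ℱ : Finset (Place ℂ K → ℤ), (∀ E ∈ ℱ, {P | IsPrimeDivisor y P ∧ E P ≠ 0}.Finite ∧
        rc y c (fun P => (E P : ℚ)) ∈ C ∧ rc y c (fun P => (E P : ℚ)) ∉ P) ∧
      ∀ L : Place ℂ K → ℚ, Fin0 y L → rc y c L ∈ C → rc y c L ∉ P →
        ∃ ψ ∈ 𝒮, ∃ t : (Place ℂ K → ℤ) → ℚ, (∀ E, 0 ≤ t E) ∧
          NumEquiv y L (fun P => ∑ E ∈ ℱ, t E * pullD ψ (fun P => (E P : ℚ)) P) := by
  classical
  obtain ⟨F, hF, hall⟩ := bdry hy hc h𝒮 hC hop hcl hint' hPne hcov hF₀ hCE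
  have hD : ∀ s : F, ∃ D : Place ℂ K → ℤ, {P | IsPrimeDivisor y P ∧ D P ≠ 0}.Finite ∧ ∃ m : ℕ, 1 ≤ m ∧
      rc y c (fun P => (D P : ℚ)) = (m : ℝ) • (s : Fin ρ → ℝ) := fun s => exists_div_int hc (hF s s.2).1
  choose D hDf m hm1 hDc using hD
  have hmp : ∀ s, (0 : ℝ) < m s := fun s => by exact_mod_cast hm1 s
  have hfinD : ∀ E ∈ Finset.univ.image D, Fin0 y (fun P => (E P : ℚ)) := by
    intro E hE
    obtain ⟨s, -, rfl⟩ := Finset.mem_image.1 hE
    refine (hDf s).subset ?_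
    rintro P ⟨h1, h2⟩
    exact ⟨h1, fun h3 => h2 (by show ((D s P : ℤ) : ℚ) = 0; rw [h3]; simp)⟩
  refine ⟨Finset.univ.image D, fun E hE => ?_, fun L hL h1 h2 => ?_⟩
  · obtain ⟨s, -, rfl⟩ := Finset.mem_image.1 hE
    refine ⟨hDf s, ?_, fun h3 => ?_⟩
    · rw [hDc s]
      exact hC.smul _ (hmp s).le _ (hF s s.2).2.1
    · rw [hDc s] at h3
      have h4 := hop.smul (m s : ℝ)⁻¹ (inv_pos.2 (hmp s)) _ h3
      rw [smul_smul, inv_mul_cancel₀ (hmp s).ne', one_smul] at h4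
      exact (hF s s.2).2.2 h4
  · obtain ⟨T, ⟨ψ, hψ, hT⟩, t, ht, hLt⟩ := hall (cls y (cQ c) L) h1 h2
    have hps := h𝒮 ψ hψ
    have hpf : ∀ E ∈ Finset.univ.image D, Fin0 y (pullD ψ (fun P => (E P : ℚ))) := fun E hE =>
      fin_pull hps (hfinD E hE)
    -- rational coefficients of the divisors
    obtain ⟨u, hu⟩ : ∃ u : (Place ℂ K → ℤ) → ℚ, u = fun E => ∑ s : F, if D s = E then t s / m s else 0 :=
      ⟨_, rfl⟩
    refine ⟨ψ, hψ, u, fun E => ?_, ?_⟩
    · rw [hu]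
      refine Finset.sum_nonneg fun s _ => ?_
      split_ifs
      · exact div_nonneg (ht s) (Nat.cast_nonneg _)
      · exact le_rfl
    · have hFs : Fin0 y (fun P => ∑ E ∈ Finset.univ.image D, u E * pullD ψ (fun P => (E P : ℚ)) P) :=
        Fin0.sum _ fun E hE => (fin_pull hps (hfinD E hE)).smul _
      rw [numEquiv_iff hy hc hL hFs]
      have h3 : rc y c (fun P => ∑ E ∈ Finset.univ.image D, u E * pullD ψ (fun P => (E P : ℚ)) P) =
          ∑ E ∈ Finset.univ.image D, (u E : ℝ) • T (rc y c (fun P => (E P : ℚ))) := by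
        unfold rc
        rw [cls_sum _ fun E hE => (fin_pull hps (hfinD E hE)).smul _, toR_sum]
        refine Finset.sum_congr rfl fun E hE => ?_
        have h4 := rc_smul (y := y) (c := c) (u E) (pullD ψ (fun P => (E P : ℚ)))
        rw [rc_pull hy hps hT (hfinD E hE)] at h4
        exact h4
      rw [h3]
      show toR (cls y (cQ c) L) = _
      rw [hLt, ← Finset.sum_coe_sort F]
      have h5 : ∀ E ∈ Finset.univ.image D, (u E : ℝ) • T (rc y c (fun P => (E P : ℚ))) =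
          ∑ s ∈ Finset.univ.filter (fun s : F => D s = E), (t s : ℝ) • T s := by
        intro E hE
        rw [hu]
        push_cast
        rw [Finset.sum_smul, Finset.sum_filter]
        refine Finset.sum_congr rfl fun s _ => ?_
        by_cases h6 : D s = E
        · rw [if_pos h6, if_pos h6, ← h6, hDc s, map_smul, smul_smul]
          congr 1
          have := (hmp s).ne'
          push_cast
          field_simp
        · rw [if_neg h6, if_neg h6]
          push_cast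
          rw [zero_smul]
      rw [Finset.sum_congr rfl h5]
      exact (Finset.sum_fiberwise_of_maps_to (fun s hs => Finset.mem_image_of_mem D hs) _).symm

end

end Pool.Agent.L0h16.LA
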