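import Pool.Agent.L0h16.LA.Pull
import Pool.Agent.L0h18.LZ.Inst
import Pool.Agent.L0h18.CO.Act

/-!
Divisors on varieties whose automorphisms act on the divisor classes through a subgroup of finite index
of the orthogonal group of an integral quadratic form of signature `(1, ρ - 1)`.
-/

set_option autoImplicit false
set_option linter.unusedSectionVars false

open FF Pool.Agent.W602.GT Pool.Agent.Y172 Pool.Agent.R887
open Pool.Agent.Y167 (cone mem_cone_self)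
open Pool.Agent.N110 Pool.Agent.N110.PA Pool.Agent.N110.NV Pool.Agent.N492.PA Pool.Agent.N110.CC
open Pool.Agent.N165.KM (IntL interior_add_mem interior_smul_mem)
open Pool.Agent.L0h18.CO Pool.Agent.L0h18.LZ

namespace Pool.Agent.L0h16.LA

section

variable {K : Type} [Field K] [Algebra ℂ K] {N n ρ : ℕ} {y : Fin (N + 1) → K}
  {c : Place ℂ K → Fin ρ → ℤ} {𝒮 𝒯 : Subgroup (K ≃ₐ[ℂ] K)} {B : Matrix (Fin ρ) (Fin ρ) ℤ} {h : Fin ρ → ℝ}

/-- a positive integral multiple of a rational vector is integral -/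
theorem exists_int_mul (q : Fin ρ → ℚ) : ∃ m : ℕ, 1 ≤ m ∧ (m : ℝ) • toR q ∈ IntL ρ := by
  obtain ⟨m, hm⟩ : ∃ m : ℕ, m = ∏ i, (q i).den := ⟨_, rfl⟩
  have hm0 : 0 < m := by
    rw [hm]
    exact Finset.prod_pos fun i _ => (q i).pos
  refine ⟨m, hm0, fun i => ?_⟩
  obtain ⟨t, ht⟩ : (q i).den ∣ m := by
    rw [hm]
    exact Finset.dvd_prod_of_mem _ (Finset.mem_univ i)
  refine ⟨t * (q i).num, ?_⟩
  have h1 : ((m : ℚ)) * q i = ((t * (q i).num : ℤ) : ℚ) := by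
    rw [ht]
    push_cast
    have h2 : (q i) * ((q i).den : ℚ) = (q i).num := Rat.mul_den_eq_num (q i)
    calc ((q i).den : ℚ) * t * q i = t * (q i * (q i).den) := by ring
      _ = t * (q i).num := by rw [h2]
  show (m : ℝ) * ((q i : ℚ) : ℝ) = _
  exact_mod_cast h1

/-- every integral vector is, up to a positive multiple, the class of an integral divisor -/
theorem exists_div_int (hc : PicardBasis y c) {s : Fin ρ → ℝ} (hs : s ∈ IntL ρ) :
    ∃ D : Place ℂ K → ℤ, {P | IsPrimeDivisor y P ∧ D P ≠ 0}.Finite ∧ ∃ m : ℕ, 1 ≤ m ∧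
      rc y c (fun P => (D P : ℚ)) = (m : ℝ) • s := by
  choose z hz using hs
  obtain ⟨L, hL, h1⟩ := exists_div hc (fun i => (z i : ℚ))
  obtain ⟨m, hm, D, hD⟩ := exists_intD (y := y) hL
  refine ⟨D, ?_, m, hm, ?_⟩
  · refine hL.subset ?_
    rintro P ⟨hP, h0⟩
    refine ⟨hP, fun h1 => h0 ?_⟩
    have h2 := hD P hP
    rw [h1, mul_zero] at h2
    exact_mod_cast h2
  · have h3 := rc_smul (y := y) (c := c) (m : ℚ) L
    unfold rc at h3 ⊢
    rw [cls_congr (c := cQ c) hD, h3, h1]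
    have h4 : toR (fun i => (z i : ℚ)) = s := by
      funext i
      rw [hz i]
      simp [toR]
    rw [h4]
    norm_num

theorem bil_zero_left (B : Matrix (Fin ρ) (Fin ρ) ℤ) (x : Fin ρ → ℝ) : bil B 0 x = 0 := by
  have := bil_smul_left B 0 0 x
  rwa [zero_smul, zero_mul] at this

/-- a nonzero vector of the closed cone is in the open cone or isotropic -/
theorem pos_or_iso (hB : Lorentz B h) {x : Fin ρ → ℝ} (hx : x ∈ ncone B h) :
    x ∈ pcone B h ∨ bil B x x = 0 := by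
  rcases lt_or_eq_of_le hx.1 with h1 | h1
  · refine Or.inl ⟨h1, lt_of_le_of_ne hx.2 fun h2 => ?_⟩
    have hx0 : x ≠ 0 := by
      rintro rfl
      rw [bil_zero_left] at h1
      exact lt_irrefl _ h1
    exact absurd (hB.neg x h2.symm hx0) (not_lt.2 h1.le)
  · exact Or.inr h1.symm

/-- **The cusps**: finitely many isotropic integral vectors. -/
theorem cusps (hm : Mods) (hy : NormalModel y) (hc : PicardBasis y c)
    (h𝒮 : ∀ φ ∈ 𝒮, PseudoAut φ y) (hB : Lorentz B h) (hG : FinIdx B h (pulls y c 𝒮))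
    (hCE : CE y c = ncone B h) :
    ∃ F : Finset (Fin ρ → ℝ), (∀ s ∈ F, s ∈ IntL ρ ∧ s ∈ ncone B h ∧ s ≠ 0 ∧ bil B s s = 0) ∧
      ∀ q : Fin ρ → ℚ, toR q ∈ ncone B h → toR q ≠ 0 → bil B (toR q) (toR q) = 0 →
        ∃ s ∈ F, ∃ T ∈ pulls y c 𝒮, ∃ t : ℚ, 0 < t ∧ toR q = (t : ℝ) • T s := by
  classical
  obtain ⟨-, -, -, -, -, -, -, -, -, -, -, -, -, iso, -, -⟩ := hm.bas ρ B h hB
  obtain ⟨-, ⟨S, hS, hU, -⟩, -⟩ := Pool.Agent.L0h18.LZ.main (𝒮 := 𝒮) (𝒯 := 𝒮) hm hy hc le_rfl h𝒮 hB hG hCE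
    (A := ncone B h) rfl
  have hiso := hG.sub
  have hn0 : ∀ x ∈ coneOf {x : Fin ρ → ℝ | (∀ i, ∃ m : ℤ, x i = (m : ℝ)) ∧ x ∈ ncone B h}, x ∈ ncone B h := by
    have hpc := pc_eff hc.numClasses
    intro x hx
    rw [← hCE]
    refine coneOf_ind (p := fun x => x ∈ CE y c) ?_
        (fun x z hx hz => hpc.add x hx z hz) (fun t x ht hx => hpc.smul t ht x hx)
        (fun a ha => by rw [hCE]; exact ha.2) hx
    rw [hCE]
    refine ⟨?_, ?_⟩
    · rw [bil_zero_left]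
    · rw [bil_zero_left]
  have hSn : ∀ T ∈ pulls y c 𝒮, ∀ s ∈ S, s ∈ ncone B h := by
    intro T hT s hs
    have h2 : T s ∈ coneOf {x : Fin ρ → ℝ | (∀ i, ∃ m : ℤ, x i = (m : ℝ)) ∧ x ∈ ncone B h} := by
      rw [hU]
      simp only [Set.mem_iUnion, Set.mem_image]
      exact ⟨T, hT, s, mem_cone_self hs, rfl⟩
    exact ((iso T (hiso hT)).2 s).1 (hn0 _ h2)
  refine ⟨S.filter (fun s => s ∈ ncone B h ∧ s ≠ 0 ∧ bil B s s = 0), fun s hs => ?_, fun q hq hq0 hqq => ?_⟩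
  · rw [Finset.mem_filter] at hs
    exact ⟨hS s hs.1, hs.2⟩
  · obtain ⟨m, hm1, hmq⟩ := exists_int_mul q
    have hm0 : (0 : ℝ) < m := by exact_mod_cast hm1
    have h1 : toR q ∈ coneOf {x : Fin ρ → ℝ | (∀ i, ∃ m : ℤ, x i = (m : ℝ)) ∧ x ∈ ncone B h} := by
      have h2 : toR q = (m : ℝ)⁻¹ • ((m : ℝ) • toR q) := by
        rw [smul_smul, inv_mul_cancel₀ hm0.ne', one_smul]
      rw [h2]
      have h3 : (m : ℝ) • toR q ∈ coneOf {x : Fin ρ → ℝ | (∀ i, ∃ m : ℤ, x i = (m : ℝ)) ∧ x ∈ ncone B h} := by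
        refine coneOf_self ⟨hmq, ?_, ?_⟩
        · rw [bil_smul_left, bil_smul_right, hqq]
          simp
        · rw [bil_smul_left]
          exact mul_nonneg hm0.le hq.2
      exact coneOf_smul h3 (by positivity)
    rw [hU] at h1
    simp only [Set.mem_iUnion, Set.mem_image] at h1
    obtain ⟨T, hT, z, hz, hTz⟩ := h1
    have hz0 : z ≠ 0 := fun h2 => hq0 (by rw [← hTz, h2, map_zero])
    have hzn : z ∈ ncone B h := ((iso T (hiso hT)).2 z).1 (by rw [hTz]; exact hq)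
    have hzz : bil B z z = 0 := by
      rw [← (hiso hT).2.2.1 z z, hTz]
      exact hqq
    obtain ⟨s, hs, hs0, hss, t, ht, hzt⟩ := isotropic_mem hm.bas hB (hSn T hT) hz hzn hz0 hzz
    have hTs : T s ∈ IntL ρ := (hiso hT).1 s (hS s hs)
    have hTs0 : T s ≠ 0 := fun h2 => hs0 (T.injective (by rw [h2, map_zero]))
    obtain ⟨i, hi⟩ : ∃ i, T s i ≠ 0 := by
      by_contra hcon
      push Not at hcon
      exact hTs0 (funext hcon)
    obtain ⟨k, hk⟩ := hTs i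
    have hq1 : toR q = t • T s := by rw [← hTz, hzt, map_smul]
    have h3 : ((q i : ℚ) : ℝ) = t * T s i := congrFun hq1 i
    have hk0 : (k : ℚ) ≠ 0 := by
      intro h4
      apply hi
      rw [hk]
      exact_mod_cast h4
    have h5 : t = ((q i / k : ℚ) : ℝ) := by
      rw [hk] at h3
      push_cast
      have hk1 : (k : ℝ) ≠ 0 := by exact_mod_cast hk0
      rw [h3]
      field_simp
    have ht0 : t ≠ 0 := fun h4 => hz0 (by rw [hzt, h4, zero_smul])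
    have ht1 : 0 < t := lt_of_le_of_ne ht (Ne.symm ht0)
    refine ⟨s, Finset.mem_filter.2 ⟨hs, hSn T hT s hs, hs0, hss⟩, T, hT, q i / k, ?_, ?_⟩
    · have h6 : (0 : ℝ) < ((q i / k : ℚ) : ℝ) := by rw [← h5]; exact ht1
      exact_mod_cast h6
    · rw [← h5]
      exact hq1

/-- divisor form of the cusps -/
theorem cusps_div (hm : Mods) (hy : NormalModel y) (hc : PicardBasis y c)
    (h𝒮 : ∀ φ ∈ 𝒮, PseudoAut φ y) (hB : Lorentz B h) (hG : FinIdx B h (pulls y c 𝒮))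
    (hCE : CE y c = ncone B h) :
    ∃ ℱ : Finset (Place ℂ K → ℤ), (∀ E ∈ ℱ, {P | IsPrimeDivisor y P ∧ E P ≠ 0}.Finite ∧
        rc y c (fun P => (E P : ℚ)) ∈ ncone B h ∧ rc y c (fun P => (E P : ℚ)) ≠ 0 ∧
        bil B (rc y c (fun P => (E P : ℚ))) (rc y c (fun P => (E P : ℚ))) = 0) ∧
      ∀ L : Place ℂ K → ℚ, Fin0 y L → rc y c L ∈ ncone B h → rc y c L ≠ 0 →
        bil B (rc y c L) (rc y c L) = 0 →
        ∃ E ∈ ℱ, ∃ ψ ∈ 𝒮, ∃ t : ℚ, 0 < t ∧ NumEquiv y L (fun P => t * pullD ψ (fun P => (E P : ℚ)) P) := by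
  classical
  obtain ⟨F, hF, hall⟩ := cusps hm hy hc h𝒮 hB hG hCE
  have hD : ∀ s : F, ∃ D : Place ℂ K → ℤ, {P | IsPrimeDivisor y P ∧ D P ≠ 0}.Finite ∧ ∃ m : ℕ, 1 ≤ m ∧
      rc y c (fun P => (D P : ℚ)) = (m : ℝ) • (s : Fin ρ → ℝ) := fun s => exists_div_int hc (hF s s.2).1
  choose D hDf m hm1 hDc using hD
  have hmp : ∀ s, (0 : ℝ) < m s := fun s => by exact_mod_cast hm1 s
  refine ⟨Finset.univ.image D, fun E hE => ?_, fun L hL h1 h2 h3 => ?_⟩
  · obtain ⟨s, -, rfl⟩ := Finset.mem_image.1 hE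
    refine ⟨hDf s, ?_, ?_, ?_⟩
    · rw [hDc s]
      refine ⟨?_, ?_⟩
      · rw [bil_smul_left, bil_smul_right, (hF s s.2).2.2.2]
        simp
      · rw [bil_smul_left]
        exact mul_nonneg (hmp s).le (hF s s.2).2.1.2
    · rw [hDc s]
      exact smul_ne_zero (hmp s).ne' (hF s s.2).2.2.1
    · rw [hDc s, bil_smul_left, bil_smul_right, (hF s s.2).2.2.2]
      simp
  · obtain ⟨s, hs, T, ⟨ψ, hψ, hT⟩, t, ht, hLt⟩ := hall (cls y (cQ c) L) h1 h2 h3
    have hDF : Fin0 y (fun P => (D ⟨s, hs⟩ P : ℚ)) := by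
      refine (hDf ⟨s, hs⟩).subset ?_
      rintro P ⟨h1, h2⟩
      exact ⟨h1, fun h3 => h2 (by show ((D ⟨s, hs⟩ P : ℤ) : ℚ) = 0; rw [h3]; simp)⟩
    have hps := h𝒮 ψ hψ
    have hmq : (m ⟨s, hs⟩ : ℚ) ≠ 0 := by
      have := hmp ⟨s, hs⟩
      exact_mod_cast this.ne'
    refine ⟨D ⟨s, hs⟩, Finset.mem_image_of_mem _ (Finset.mem_univ _), ψ, hψ, t / m ⟨s, hs⟩, ?_, ?_⟩
    · have : (0 : ℚ) < m ⟨s, hs⟩ := by exact_mod_cast hm1 ⟨s, hs⟩
      positivity
    · rw [numEquiv_iff hy hc hL ((fin_pull hps hDF).smul _), rc_smul, rc_pull hy hps hT hDF, hDc ⟨s, hs⟩, map_smul,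
        smul_smul]
      show toR (cls y (cQ c) L) = _
      rw [hLt]
      congr 1
      push_cast
      have hmr : (m ⟨s, hs⟩ : ℝ) ≠ 0 := (hmp ⟨s, hs⟩).ne'
      field_simp

/-- nef divisors -/
theorem nefD_of_psef (hy : NormalModel y) (hc : PicardBasis y c) (hq : IrregularityZero y)
    (hint : interior (CE y c) ⊆ saCone y n c) {L : Place ℂ K → ℚ} (hL : Fin0 y L) (hps : PsefD y L) :
    Pool.Agent.N110.DV.NefD y n L := by
  intro i hi q hq1
  obtain ⟨Hy, hHe, hH⟩ := exists_hyp hy hi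
  have hpc := pc_eff hc.numClasses
  have hF : Fin0 y (fun P => (q : ℚ) * L P + Hy P) := Fin0.add (hL.smul _) hHe.2
  have h1 : rc y c (fun P => (q : ℚ) * L P + Hy P) ∈ interior (CE y c) := by
    rw [rc_add (hL.smul _) hHe.2, rc_smul, add_comm]
    exact interior_add_mem hpc.add (hyp_intN hy hc hi hHe hH)
      (hpc.smul _ (by positivity) _ ((psef_iff hy hc hL).1 hps))
  obtain ⟨m, hm, D, hD, hDm⟩ := (semiample_iff hy hc hq hF).2 (hint h1)
  refine ⟨m, hm, fun Q hQ => ?_⟩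
  obtain ⟨f, hf, h2, h3⟩ := hD.2 Q hQ
  refine ⟨f, hf, fun P l hP hl => ?_, fun P l hP hPQ hl => ?_⟩
  · have h4 := h2 P hP
    have h5 := hDm P hP
    beta_reduce at h5
    rw [hH P l hP hl] at h5
    have h6 : (0 : ℚ) ≤ (P.ord f : ℚ) + (D P : ℚ) := by exact_mod_cast h4
    rw [h5] at h6
    linarith
  · have h4 := h3 P hP hPQ
    have h5 := hDm P hP
    beta_reduce at h5
    rw [hH P l hP hl] at h5
    have h6 : (P.ord f : ℚ) + (D P : ℚ) = 0 := by exact_mod_cast h4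
    rw [h5] at h6
    linarith

end

end Pool.Agent.L0h16.LA
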