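import Pool.Agent.L0h16.LA.Abun
import Pool.Agent.L0h16.LA.Bdry

/-!
Movable `ℚ`-divisors and their classes.
-/

set_option autoImplicit false
set_option linter.unusedSectionVars false

open FF Pool.Agent.W602.GT Pool.Agent.Y172 Pool.Agent.R887
open Pool.Agent.N110 Pool.Agent.N110.PA Pool.Agent.N110.NV Pool.Agent.N492.PA Pool.Agent.N110.CC
open Pool.Agent.L0h18.CO

namespace Pool.Agent.L0h16.LA

section

variable {K : Type} [Field K] [Algebra ℂ K] {N n ρ : ℕ} {y : Fin (N + 1) → K}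
  {c : Place ℂ K → Fin ρ → ℤ} {𝒮 : Subgroup (K ≃ₐ[ℂ] K)}

/-- Some positive multiple of the `ℚ`-divisor `L` is an integral divisor the linear system of which has no
fixed components. -/
def MovD (y : Fin (N + 1) → K) (L : Place ℂ K → ℚ) : Prop :=
  ∃ m : ℕ, 1 ≤ m ∧ ∃ D : Place ℂ K → ℤ, IsMovable y D ∧ ∀ P, IsPrimeDivisor y P → (D P : ℚ) = m * L P

theorem mov_zero : IsMovable y (fun _ => 0) := by
  refine ⟨Set.finite_empty.subset ?_, fun P _ => ⟨1, one_ne_zero, fun Q _ => ?_, ?_⟩⟩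
  · rintro P ⟨-, h⟩
    exact h rfl
  · rw [Q.ord_one]
    simp
  · rw [P.ord_one]
    simp

theorem mov_add {D D' : Place ℂ K → ℤ} (h : IsMovable y D) (h' : IsMovable y D') :
    IsMovable y (fun P => D P + D' P) := by
  refine ⟨(h.1.union h'.1).subset ?_, fun P hP => ?_⟩
  · rintro P ⟨hP, h0⟩
    by_cases h1 : D P = 0
    · exact Or.inr ⟨hP, fun h2 => h0 (by show D P + D' P = 0; rw [h1, h2, add_zero])⟩
    · exact Or.inl ⟨hP, h1⟩
  · obtain ⟨f, hf, h1, h2⟩ := h.2 P hP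
    obtain ⟨g, hg, h3, h4⟩ := h'.2 P hP
    refine ⟨f * g, mul_ne_zero hf hg, fun Q hQ => ?_, ?_⟩
    · rw [Q.ord_mul hf hg]
      have h5 := h1 Q hQ
      have h6 := h3 Q hQ
      linarith
    · rw [P.ord_mul hf hg]
      linarith

theorem mov_nsmul {D : Place ℂ K → ℤ} (h : IsMovable y D) (k : ℕ) :
    IsMovable y (fun P => (k : ℤ) * D P) := by
  induction k with
  | zero =>
    have h1 : (fun P => ((0 : ℕ) : ℤ) * D P) = fun _ : Place ℂ K => (0 : ℤ) := by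
      funext P
      simp
    rw [h1]
    exact mov_zero
  | succ k ih =>
    have h1 : (fun P => ((k + 1 : ℕ) : ℤ) * D P) = fun P => (k : ℤ) * D P + D P := by
      funext P
      push_cast
      ring
    rw [h1]
    exact mov_add ih h

theorem mov_sum {ι : Type*} (s : Finset ι) {D : ι → Place ℂ K → ℤ}
    (h : ∀ i ∈ s, IsMovable y (D i)) : IsMovable y (fun P => ∑ i ∈ s, D i P) := by
  classical
  induction s using Finset.induction_on with
  | empty =>
    simp only [Finset.sum_empty]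
    exact mov_zero
  | insert a s ha ih =>
    have h1 : (fun P => ∑ i ∈ insert a s, D i P) = fun P => D a P + ∑ i ∈ s, D i P := by
      funext P
      rw [Finset.sum_insert ha]
    rw [h1]
    exact mov_add (h a (Finset.mem_insert_self a s))
      (ih fun i hi => h i (Finset.mem_insert_of_mem hi))

theorem mov_princ {D D' : Place ℂ K → ℤ} (h : IsMovable y D) {f : K} (hf : f ≠ 0)
    (hfin : {P | IsPrimeDivisor y P ∧ D' P ≠ 0}.Finite)
    (hD : ∀ P, IsPrimeDivisor y P → D' P = D P + P.ord f) : IsMovable y D' := by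
  refine ⟨hfin, fun P hP => ?_⟩
  obtain ⟨g, hg, h1, h2⟩ := h.2 P hP
  refine ⟨g / f, div_ne_zero hg hf, fun Q hQ => ?_, ?_⟩
  · rw [Q.ord_div hg hf, hD Q hQ]
    have := h1 Q hQ
    linarith
  · rw [P.ord_div hg hf, hD P hP]
    linarith

/-- the cone generated by the classes of the movable divisors -/
def moCone (y : Fin (N + 1) → K) (c : Place ℂ K → Fin ρ → ℤ) : Set (Fin ρ → ℝ) :=
  coneOf {z | ∃ D, IsMovable y D ∧ z = divClass y c D}

/-- a divisor whose class is a combination of the classes of movable divisors -/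
theorem mov_of_class {L : Place ℂ K → ℚ}
    (hL : {P | IsPrimeDivisor y P ∧ L P ≠ 0}.Finite)
    (h : toR (cls y (cQ c) L) ∈ moCone y c) :
    ∃ m : ℕ, 1 ≤ m ∧ ∃ D : Place ℂ K → ℤ, IsMovable y D ∧
      cls y (cQ c) (fun P => m * L P - D P) = 0 := by
  classical
  obtain ⟨S, hS, a, ha, hsum⟩ := h
  have hD : ∀ z : S, ∃ D : Place ℂ K → ℤ, IsMovable y D ∧ (z : Fin ρ → ℝ) = divClass y c D :=
    fun z => hS z.2
  choose D hDf hDz using hD
  have hz : ∀ z : S, toR (cls y (cQ c) (fun P => (D z P : ℚ))) = z := fun z => by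
    rw [← Pool.Agent.N681.CC.divClass_eq c (hDf z).1, ← hDz z]
  obtain ⟨a', ha', hrat⟩ := Pool.Agent.N619.CC.rat_cone
    (fun z : S => cls y (cQ c) (fun P => (D z P : ℚ))) (cls y (cQ c) L) _ Finset.univ rfl
    (fun z => a z) (fun z => ha z) (by
      rw [hsum, ← Finset.sum_coe_sort S]
      refine Finset.sum_congr rfl fun z _ => ?_
      rw [hz z])
  -- clear denominators
  obtain ⟨m, hm⟩ : ∃ m : ℕ, m = ∏ z : S, (a' z).den := ⟨_, rfl⟩
  have hm0 : 0 < m := by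
    rw [hm]
    exact Finset.prod_pos fun z _ => (a' z).den_pos
  have hk : ∀ z : S, ∃ k : ℕ, (k : ℚ) = m * a' z := by
    intro z
    obtain ⟨k, hk⟩ : (a' z).den ∣ m := hm ▸ Finset.dvd_prod_of_mem _ (Finset.mem_univ z)
    refine ⟨k * (a' z).num.toNat, ?_⟩
    have h2 : ((a' z).den : ℚ) * a' z = (a' z).num := Rat.den_mul_eq_num (a' z)
    have h3 : (((a' z).num.toNat : ℤ) : ℚ) = (a' z).num := by
      rw [Int.toNat_of_nonneg (Rat.num_nonneg.2 (ha' z))]
    have h4 : (((a' z).num.toNat : ℕ) : ℚ) = (a' z).num := by exact_mod_cast h3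
    rw [hk]
    push_cast
    rw [h4]
    linear_combination (-(k : ℚ)) * h2
  choose k hk using hk
  refine ⟨m, hm0, fun P => ∑ z : S, (k z : ℤ) * D z P,
    mov_sum _ fun z _ => mov_nsmul (hDf z) (k z), ?_⟩
  have hfin : ∀ z : S, Fin0 y (fun P => (D z P : ℚ)) := fun z => by
    refine (hDf z).1.subset ?_
    rintro P ⟨h1, h2⟩
    exact ⟨h1, fun h3 => h2 (by show ((D z P : ℤ) : ℚ) = 0; rw [h3]; simp)⟩
  have h1 : (fun P => ((∑ z : S, (k z : ℤ) * D z P : ℤ) : ℚ)) =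
      fun P => ∑ z : S, (k z : ℚ) * (D z P : ℚ) := by
    funext P
    push_cast
    rfl
  have h2 : cls y (cQ c) (fun P => ((∑ z : S, (k z : ℤ) * D z P : ℤ) : ℚ)) =
      (m : ℚ) • cls y (cQ c) L := by
    rw [h1, cls_sum Finset.univ fun z _ => (hfin z).smul (k z)]
    conv_rhs => rw [hrat, Finset.smul_sum]
    refine Finset.sum_congr rfl fun z _ => ?_
    rw [cls_smul, smul_smul, hk z]
  have h3 : Fin0 y (fun P => ((∑ z : S, (k z : ℤ) * D z P : ℤ) : ℚ)) := by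
    rw [h1]
    exact Fin0.sum Finset.univ fun z _ => (hfin z).smul (k z)
  rw [cls_sub (Fin0.smul hL (m : ℚ)) h3, h2, cls_smul, sub_self]

theorem fin_movD {L : Place ℂ K → ℚ} (h : MovD y L) : Fin0 y L := by
  obtain ⟨m, hm, D, hD, h1⟩ := h
  refine hD.1.subset ?_
  rintro P ⟨hP, h0⟩
  refine ⟨hP, fun h2 => h0 ?_⟩
  have h3 := h1 P hP
  rw [h2, Int.cast_zero] at h3
  have hm0 : (m : ℚ) ≠ 0 := by
    have : 0 < m := hm
    exact_mod_cast this.ne'
  exact (mul_eq_zero.1 h3.symm).resolve_left hm0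

theorem mov_class {L : Place ℂ K → ℚ} (h : MovD y L) : rc y c L ∈ moCone y c := by
  obtain ⟨m, hm, D, hD, h1⟩ := h
  have hm0 : (m : ℝ) ≠ 0 := by
    have : 0 < m := hm
    exact_mod_cast this.ne'
  have h2 : divClass y c D = (m : ℝ) • rc y c L := by
    rw [Pool.Agent.N681.CC.divClass_eq c hD.1, cls_congr (c := cQ c) h1]
    have h3 := rc_smul (y := y) (c := c) (m : ℚ) L
    unfold rc at h3 ⊢
    rw [h3]
    norm_num
  have h4 : rc y c L = (m : ℝ)⁻¹ • divClass y c D := by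
    rw [h2, smul_smul, inv_mul_cancel₀ hm0, one_smul]
  rw [h4]
  have h5 : divClass y c D ∈ moCone y c := coneOf_self ⟨D, hD, rfl⟩
  exact coneOf_smul h5 (by positivity)

/-- movable divisors, irregularity zero -/
theorem movD_iff (hy : NormalModel y) (hc : PicardBasis y c) (hq : IrregularityZero y)
    {L : Place ℂ K → ℚ} (hL : Fin0 y L) : MovD y L ↔ rc y c L ∈ moCone y c := by
  refine ⟨mov_class, fun h => ?_⟩
  obtain ⟨m, hm, D, hD, h0⟩ := mov_of_class hL h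
  have hDf : Fin0 y (fun P => (D P : ℚ)) := by
    refine hD.1.subset ?_
    rintro P ⟨h1, h2⟩
    exact ⟨h1, fun h3 => h2 (by show ((D P : ℤ) : ℚ) = 0; rw [h3]; simp)⟩
  have hf : Fin0 y (fun P => m * L P - D P) := (Fin0.smul hL (m : ℚ)).sub hDf
  have h1 := psef_of_zero hc.numClasses hf h0
  have h2 := psef_of_zero hc.numClasses (fin_neg hf) (by rw [cls_neg, h0, neg_zero])
  obtain ⟨k, hk, f, hf0, hk2⟩ := torsion hy hq hf h1 h2
  have h3 : ∀ P, IsPrimeDivisor y P →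
      (((k : ℤ) * D P + P.ord f : ℤ) : ℚ) = ((k * m : ℕ) : ℚ) * L P := by
    intro P hP
    push_cast
    rw [hk2 P hP]
    ring
  refine ⟨k * m, Nat.one_le_iff_ne_zero.2 (by positivity), fun P => (k : ℤ) * D P + P.ord f,
    mov_princ (mov_nsmul hD k) hf0 ?_ (fun P _ => rfl), h3⟩
  refine hL.subset ?_
  rintro P ⟨hP, h4⟩
  refine ⟨hP, fun h5 => h4 ?_⟩
  have h6 := h3 P hP
  rw [h5, mul_zero] at h6
  exact_mod_cast h6

/-- pseudo-automorphisms preserve the cone -/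
theorem mo_pres (hy : NormalModel y) (h𝒮 : ∀ φ ∈ 𝒮, PseudoAut φ y)
    {T : (Fin ρ → ℝ) ≃ₗ[ℝ] (Fin ρ → ℝ)} (hT : T ∈ pulls y c 𝒮) {x : Fin ρ → ℝ}
    (hx : x ∈ moCone y c) : T x ∈ moCone y c := by
  obtain ⟨ψ, hψ, hT⟩ := hT
  refine coneOf_map T.toLinearMap (fun a ha => ?_) hx
  obtain ⟨D', hD', rfl⟩ := ha
  have h4 := Pool.Agent.N608.CC.leafMOV K N ρ y hy c ψ (h𝒮 ψ hψ) T hT D' hD'.1
  exact ⟨_, h4.2 hD', h4.1.symm⟩

/-- the open cone consists of movable classes -/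
theorem int_mo {C : Set (Fin ρ → ℝ)} (h : movCone y c = C) (hne : (interior C).Nonempty) :
    interior C ⊆ moCone y c := by
  rw [← h]
  refine interior_closure_sub ?_
  change (interior (movCone y c)).Nonempty
  rw [h]
  exact hne

theorem qeff_of_mov {L : Place ℂ K → ℚ} (hex : ∃ P, IsPrimeDivisor y P)
    (h : MovD y L) : QEff y L := by
  obtain ⟨m, hm, D, hD, h1⟩ := h
  obtain ⟨P, hP⟩ := hex
  obtain ⟨f, hf, h2, -⟩ := hD.2 P hP
  refine ⟨m, hm, f, hf, fun Q hQ => ?_⟩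
  rw [← h1 Q hQ]
  exact_mod_cast h2 Q hQ

/-- the class of a sum of pull backs -/
theorem rc_sum_pull (hy : NormalModel y) {ψ : K ≃ₐ[ℂ] K} (hψ : PseudoAut ψ y)
    {T : (Fin ρ → ℝ) ≃ₗ[ℝ] (Fin ρ → ℝ)} (hT : IsPullBack y c ψ T) {ℱ : Finset (Place ℂ K → ℤ)}
    (hℱ : ∀ E ∈ ℱ, Fin0 y (fun P => (E P : ℚ))) (t : (Place ℂ K → ℤ) → ℚ) :
    Fin0 y (fun P => ∑ E ∈ ℱ, t E * pullD ψ (fun P => (E P : ℚ)) P) ∧
    rc y c (fun P => ∑ E ∈ ℱ, t E * pullD ψ (fun P => (E P : ℚ)) P) =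
      ∑ E ∈ ℱ, (t E : ℝ) • T (rc y c (fun P => (E P : ℚ))) := by
  have hF : ∀ E ∈ ℱ, Fin0 y (fun P => t E * pullD ψ (fun P => (E P : ℚ)) P) := fun E hEm =>
    (fin_pull hψ (hℱ E hEm)).smul _
  refine ⟨Fin0.sum _ hF, ?_⟩
  unfold rc
  rw [cls_sum _ hF, toR_sum]
  refine Finset.sum_congr rfl fun E hEm => ?_
  have h4 := rc_smul (y := y) (c := c) (t E) (pullD ψ (fun P => (E P : ℚ)))
  rw [rc_pull hy hψ hT (hℱ E hEm)] at h4
  exact h4

/-- sums of effective divisors -/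
theorem qeff_sum {ι : Type*} (s : Finset ι) {L : ι → Place ℂ K → ℚ} (h : ∀ i ∈ s, QEff y (L i)) :
    QEff y (fun P => ∑ i ∈ s, L i P) := by
  classical
  induction s using Finset.induction_on with
  | empty => exact ⟨1, le_rfl, 1, one_ne_zero, fun P _ => by rw [P.ord_one]; simp⟩
  | insert a s ha ih =>
    obtain ⟨m, hm, f, hf, h1⟩ := h a (Finset.mem_insert_self a s)
    obtain ⟨k, hk, g, hg, h2⟩ := ih fun i hi => h i (Finset.mem_insert_of_mem hi)
    refine ⟨m * k, Nat.one_le_iff_ne_zero.2 (by positivity), f ^ k * g ^ m,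
      mul_ne_zero (pow_ne_zero _ hf) (pow_ne_zero _ hg), fun P hP => ?_⟩
    beta_reduce
    rw [P.ord_mul (pow_ne_zero _ hf) (pow_ne_zero _ hg), P.ord_pow, P.ord_pow, Finset.sum_insert ha]
    have h3 := h1 P hP
    have h4 := h2 P hP
    beta_reduce at h4
    have h5 : (0 : ℚ) ≤ k := Nat.cast_nonneg k
    have h6 : (0 : ℚ) ≤ m := Nat.cast_nonneg m
    push_cast
    nlinarith [mul_nonneg h5 h3, mul_nonneg h6 h4]

/-- effectivity of the combinations -/
theorem qeff_comb {ψ : K ≃ₐ[ℂ] K} (hψ : PseudoAut ψ y) {L : Place ℂ K → ℚ} {ℱ : Finset (Place ℂ K → ℤ)}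
    {t : (Place ℂ K → ℤ) → ℚ} (ht : ∀ E, 0 ≤ t E)
    (h : QLin y L (fun P => ∑ E ∈ ℱ, t E * pullD ψ (fun P => (E P : ℚ)) P))
    (hE : ∀ E ∈ ℱ, QEff y (fun P => (E P : ℚ))) : QEff y L := by
  have h1 : QEff y (fun P => ∑ E ∈ ℱ, t E * pullD ψ (fun P => (E P : ℚ)) P) := by
    refine qeff_sum (L := fun E P => t E * pullD ψ (fun P => (E P : ℚ)) P) ℱ fun E hEm => ?_
    rcases (ht E).eq_or_lt with h0 | h0
    · refine ⟨1, le_rfl, 1, one_ne_zero, fun P _ => ?_⟩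
      rw [← h0, P.ord_one]
      simp
    · refine qeff_transport hψ h0 ⟨1, le_rfl, 1, one_ne_zero, fun P _ => ?_⟩ (hE E hEm)
      rw [P.ord_one]
      simp
  obtain ⟨m, hm, f, hf, h2⟩ := h
  obtain ⟨k, hk, g, hg, h3⟩ := h1
  refine ⟨m * k, Nat.one_le_iff_ne_zero.2 (by positivity), g ^ m / f ^ k,
    div_ne_zero (pow_ne_zero _ hg) (pow_ne_zero _ hf), fun P hP => ?_⟩
  rw [P.ord_div (pow_ne_zero _ hg) (pow_ne_zero _ hf), P.ord_pow, P.ord_pow]
  have h4 := h2 P hP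
  have h5 := mul_nonneg (Nat.cast_nonneg m : (0 : ℚ) ≤ m) (h3 P hP)
  push_cast
  rw [h4]
  linarith

end

end Pool.Agent.L0h16.LA
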