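import Pool.Agent.L0h18.CO.Div

/-!
Pull backs of `ℚ`-divisors by pseudo-automorphisms and the numerical classes of semiample divisors.
-/

set_option autoImplicit false
set_option linter.unusedSectionVars false

open FF Pool.Agent.W602.GT Pool.Agent.Y172 Pool.Agent.R887
open Pool.Agent.N110 Pool.Agent.N110.PA Pool.Agent.N110.NV Pool.Agent.N492.PA Pool.Agent.N110.CC
open Pool.Agent.L0h18.CO

namespace Pool.Agent.L0h16.LA

section

variable {K : Type} [Field K] [Algebra ℂ K] {N n ρ : ℕ} {y : Fin (N + 1) → K}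
  {c : Place ℂ K → Fin ρ → ℤ} {𝒮 : Subgroup (K ≃ₐ[ℂ] K)}

/-- The pull back `f^* L` of the `ℚ`-divisor `L` by the pseudo-automorphism `f` of `X` with `φ = f^*`. -/
def pullD (φ : K ≃ₐ[ℂ] K) (L : Place ℂ K → ℚ) : Place ℂ K → ℚ := fun P => L (comap φ P)

/-- The `ℚ`-divisors `L` and `L'` are numerically equivalent: `L - L'` and `L' - L` are
pseudo-effective. -/
def NumEquiv (y : Fin (N + 1) → K) (L L' : Place ℂ K → ℚ) : Prop :=
  PsefD y (fun P => L P - L' P) ∧ PsefD y (fun P => L' P - L P)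

/-- The `ℚ`-divisor `L` is numerically equivalent to a semiample `ℚ`-divisor. -/
def NumSemiample (y : Fin (N + 1) → K) (n : ℕ) (L : Place ℂ K → ℚ) : Prop :=
  ∃ L' : Place ℂ K → ℚ, SemiampleD y n L' ∧ NumEquiv y L L'

/-- the real class of a `ℚ`-divisor -/
noncomputable def rc (y : Fin (N + 1) → K) (c : Place ℂ K → Fin ρ → ℤ) (L : Place ℂ K → ℚ) :
    Fin ρ → ℝ := toR (cls y (cQ c) L)

theorem toR_zero' : toR (0 : Fin ρ → ℚ) = 0 := by
  funext i
  simp [toR]

theorem rc_smul (t : ℚ) (L : Place ℂ K → ℚ) : rc y c (fun P => t * L P) = (t : ℝ) • rc y c L := by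
  unfold rc
  rw [cls_smul, toR_smul]

theorem rc_sub {L L' : Place ℂ K → ℚ} (hL : Fin0 y L) (hL' : Fin0 y L') :
    rc y c (fun P => L P - L' P) = rc y c L - rc y c L' := by
  unfold rc
  rw [cls_sub hL hL', toR_sub]

theorem rc_add {L L' : Place ℂ K → ℚ} (hL : Fin0 y L) (hL' : Fin0 y L') :
    rc y c (fun P => L P + L' P) = rc y c L + rc y c L' := by
  unfold rc
  rw [cls_add hL hL', toR_add]

theorem rc_zero_iff {L : Place ℂ K → ℚ} : rc y c L = 0 ↔ cls y (cQ c) L = 0 := by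
  unfold rc
  constructor
  · intro h
    exact toR_inj (h.trans toR_zero'.symm)
  · intro h
    rw [h, toR_zero']

/-- the class of a pseudo-effective divisor -/
theorem psef_iff (hy : NormalModel y) (hc : PicardBasis y c) {L : Place ℂ K → ℚ} (hL : Fin0 y L) :
    PsefD y L ↔ rc y c L ∈ CE y c :=
  ⟨fun h => Pool.Agent.N618.CC.leafPSCL K N ρ y hy (cQ c) hc.numClasses.principal L hL h,
    fun h => psef_of_class hy hc hL h⟩

theorem big_iff (hy : NormalModel y) (hc : PicardBasis y c) {L : Place ℂ K → ℚ} (hL : Fin0 y L) :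
    BigD y L ↔ rc y c L ∈ interior (CE y c) :=
  ⟨fun h => int_of_big hy hc hL h, fun h => Pool.Agent.N619.CC.leafBIG K N ρ y hy c hc L hL h⟩

theorem numEquiv_iff (hy : NormalModel y) (hc : PicardBasis y c) {L L' : Place ℂ K → ℚ}
    (hL : Fin0 y L) (hL' : Fin0 y L') : NumEquiv y L L' ↔ rc y c L = rc y c L' := by
  have hpc := pc_eff hc.numClasses
  constructor
  · rintro ⟨h1, h2⟩
    rw [psef_iff hy hc (hL.sub hL'), rc_sub hL hL'] at h1
    rw [psef_iff hy hc (hL'.sub hL), rc_sub hL' hL] at h2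
    have h3 := hpc.pointed _ h1 (by rw [neg_sub]; exact h2)
    exact sub_eq_zero.1 h3
  · intro h
    have h0 : (0 : Fin ρ → ℝ) ∈ CE y c := by
      have h1 := (psef_iff hy hc (y := y) (c := c) (L := fun _ => (0 : ℚ))
        (Set.finite_empty.subset (by rintro P ⟨-, h⟩; exact h rfl))).1
        (psef_of_zero hc.numClasses (Set.finite_empty.subset (by rintro P ⟨-, h⟩; exact h rfl)) cls_zero)
      unfold rc at h1
      rw [cls_zero, toR_zero'] at h1
      exact h1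
    refine ⟨(psef_iff hy hc (hL.sub hL')).2 ?_, (psef_iff hy hc (hL'.sub hL)).2 ?_⟩
    · rw [rc_sub hL hL', h, sub_self]
      exact h0
    · rw [rc_sub hL' hL, h, sub_self]
      exact h0

/-- the support of a pull back -/
theorem fin_pull {φ : K ≃ₐ[ℂ] K} (hφ : PseudoAut φ y) {L : Place ℂ K → ℚ} (hL : Fin0 y L) :
    Fin0 y (pullD φ L) := by
  refine (hL.preimage (f := comap φ) (Pool.Agent.N265.CC.comap_inj φ).injOn).subset ?_
  rintro P ⟨hP, h0⟩
  exact ⟨(hφ _ _ fun _ => rfl).2 hP, h0⟩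

/-- an integral multiple -/
theorem exists_intD {L : Place ℂ K → ℚ} (hL : Fin0 y L) : ∃ m : ℕ, 1 ≤ m ∧ ∃ D : Place ℂ K → ℤ,
    ∀ P, IsPrimeDivisor y P → (D P : ℚ) = m * L P := by
  classical
  obtain ⟨m, hm⟩ : ∃ m : ℕ, m = ∏ P ∈ hL.toFinset, (L P).den := ⟨_, rfl⟩
  have hm0 : 0 < m := by
    rw [hm]
    exact Finset.prod_pos fun P _ => (L P).den_pos
  have hz : ∀ P, ∃ k : ℤ, IsPrimeDivisor y P → (k : ℚ) = m * L P := by
    intro P
    by_cases hP : IsPrimeDivisor y P ∧ L P ≠ 0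
    · obtain ⟨k, hk⟩ : (L P).den ∣ m := hm ▸ Finset.dvd_prod_of_mem _ (hL.mem_toFinset.2 hP)
      refine ⟨k * (L P).num, fun _ => ?_⟩
      have h2 : ((L P).den : ℚ) * L P = (L P).num := Rat.den_mul_eq_num (L P)
      rw [hk]
      push_cast
      linear_combination (-(k : ℚ)) * h2
    · refine ⟨0, fun h => ?_⟩
      have h3 : L P = 0 := by
        by_contra h4
        exact hP ⟨h, h4⟩
      rw [h3]
      simp
  choose D hD using hz
  exact ⟨m, hm0, D, hD⟩

/-- the class of the pull back -/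
theorem rc_pull (hy : NormalModel y) {φ : K ≃ₐ[ℂ] K} (hφ : PseudoAut φ y)
    {T : (Fin ρ → ℝ) ≃ₗ[ℝ] (Fin ρ → ℝ)} (hT : IsPullBack y c φ T) {L : Place ℂ K → ℚ}
    (hL : Fin0 y L) : rc y c (pullD φ L) = T (rc y c L) := by
  obtain ⟨m, hm, D, hD⟩ := exists_intD hL
  have hm0 : (m : ℝ) ≠ 0 := by
    have : 0 < m := hm
    exact_mod_cast this.ne'
  have hDf : {P | IsPrimeDivisor y P ∧ D P ≠ 0}.Finite := by
    refine hL.subset ?_
    rintro P ⟨hP, h0⟩
    refine ⟨hP, fun h1 => h0 ?_⟩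
    have h2 := hD P hP
    rw [h1, mul_zero] at h2
    exact_mod_cast h2
  have hDf' : {P | IsPrimeDivisor y P ∧ D (comap φ P) ≠ 0}.Finite := by
    refine (hDf.preimage (f := comap φ) (Pool.Agent.N265.CC.comap_inj φ).injOn).subset ?_
    rintro P ⟨hP, h0⟩
    exact ⟨(hφ _ _ fun _ => rfl).2 hP, h0⟩
  have h1 := (Pool.Agent.N608.CC.leafMOV K N ρ y hy c φ hφ T hT D hDf).1
  rw [Pool.Agent.N681.CC.divClass_eq c hDf, Pool.Agent.N681.CC.divClass_eq c hDf'] at h1
  have h2 : toR (cls y (cQ c) fun P => (D P : ℚ)) = (m : ℝ) • rc y c L := by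
    rw [cls_congr (c := cQ c) hD]
    have h3 := rc_smul (y := y) (c := c) (m : ℚ) L
    unfold rc at h3 ⊢
    rw [h3]
    norm_num
  have h4 : toR (cls y (cQ c) fun P => (D (comap φ P) : ℚ)) = (m : ℝ) • rc y c (pullD φ L) := by
    rw [cls_congr (c := cQ c) (D' := fun P => (m : ℚ) * pullD φ L P) fun P hP =>
      hD (comap φ P) ((hφ _ _ fun _ => rfl).2 hP)]
    have h3 := rc_smul (y := y) (c := c) (m : ℚ) (pullD φ L)
    unfold rc at h3 ⊢
    rw [h3]
    norm_num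
  rw [h2, h4, map_smul] at h1
  exact smul_right_injective _ hm0 h1

/-- the cone generated by the classes of the base point free divisors -/
def saCone (y : Fin (N + 1) → K) (n : ℕ) (c : Place ℂ K → Fin ρ → ℤ) : Set (Fin ρ → ℝ) :=
  coneOf {z | ∃ D, IsFree y n D ∧ z = divClass y c D}

theorem fin_free {D : Place ℂ K → ℤ} (hD : IsFree y n D) : Fin0 y (fun P => (D P : ℚ)) := by
  refine hD.1.subset ?_
  rintro P ⟨h1, h2⟩
  exact ⟨h1, fun h3 => h2 (by show ((D P : ℤ) : ℚ) = 0; rw [h3]; simp)⟩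

theorem fin_semiample {L : Place ℂ K → ℚ} (h : SemiampleD y n L) : Fin0 y L := by
  obtain ⟨m, hm, D, hD, h1⟩ := h
  refine hD.1.subset ?_
  rintro P ⟨hP, h0⟩
  refine ⟨hP, fun h2 => h0 ?_⟩
  have h3 := h1 P hP
  rw [h2, Int.cast_zero] at h3
  have hm0 : (m : ℚ) ≠ 0 := by
    have : 0 < m := hm
    exact_mod_cast this.ne'
  exact (mul_eq_zero.1 h3.symm).resolve_left hm0

theorem sa_class {L : Place ℂ K → ℚ} (h : SemiampleD y n L) : rc y c L ∈ saCone y n c := by
  obtain ⟨m, hm, D, hD, h1⟩ := h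
  have hm0 : (m : ℝ) ≠ 0 := by
    have : 0 < m := hm
    exact_mod_cast this.ne'
  have h2 : divClass y c D = (m : ℝ) • rc y c L := by
    rw [Pool.Agent.N681.CC.divClass_eq c hD.1, cls_congr (c := cQ c) h1]
    have h3 := rc_smul (y := y) (c := c) (m : ℚ) L
    unfold rc at h3 ⊢
    rw [h3]
    norm_num
  have h4 : rc y c L = (m : ℝ)⁻¹ • divClass y c D := by
    rw [h2, smul_smul, inv_mul_cancel₀ hm0, one_smul]
  rw [h4]
  have h5 : divClass y c D ∈ saCone y n c := coneOf_self ⟨D, hD, rfl⟩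
  exact coneOf_smul h5 (by positivity)

/-- numerically semiample divisors -/
theorem numSemiample_iff (hy : NormalModel y) (hc : PicardBasis y c) {L : Place ℂ K → ℚ}
    (hL : Fin0 y L) : NumSemiample y n L ↔ rc y c L ∈ saCone y n c := by
  constructor
  · rintro ⟨L', h1, h2⟩
    rw [(numEquiv_iff hy hc hL (fin_semiample h1)).1 h2]
    exact sa_class h1
  · intro h
    obtain ⟨L', h1, h2, h3⟩ := Pool.Agent.L0h18.CO.semiample_num hc hL (free_of_class hy hL h)
    exact ⟨L', h1, h2, h3⟩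

/-- semiample divisors, irregularity zero -/
theorem semiample_iff (hy : NormalModel y) (hc : PicardBasis y c) (hq : IrregularityZero y)
    {L : Place ℂ K → ℚ} (hL : Fin0 y L) : SemiampleD y n L ↔ rc y c L ∈ saCone y n c :=
  ⟨sa_class, fun h => Pool.Agent.L0h18.CO.semiample_q hy hc hq hL (free_of_class hy hL h)⟩

/-- automorphisms preserve the cone -/
theorem sa_pres (hy : NormalModel y) (h𝒮 : ∀ φ ∈ 𝒮, IsAut φ y)
    {T : (Fin ρ → ℝ) ≃ₗ[ℝ] (Fin ρ → ℝ)} (hT : T ∈ pulls y c 𝒮) {x : Fin ρ → ℝ}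
    (hx : x ∈ saCone y n c) : T x ∈ saCone y n c := by
  obtain ⟨ψ, hψ, hT⟩ := hT
  have hfr := fun φ hφ => Pool.Agent.N265.CC.leafFREE K N n y hy φ (h𝒮 φ hφ)
  refine coneOf_map T.toLinearMap (fun a ha => ?_) hx
  obtain ⟨D', hD', rfl⟩ := ha
  have h4 := Pool.Agent.N608.CC.leafMOV K N ρ y hy c ψ (hfr ψ hψ).1 T hT D' hD'.1
  exact ⟨_, (hfr ψ hψ).2 D' hD', h4.1.symm⟩

end

end Pool.Agent.L0h16.LA
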